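import Mathlib

/-! Magnetization from the tail of the cluster size: the abstract estimates. -/

set_option autoImplicit false

namespace Pool.Agent.W2helper75.EQ

open MeasureTheory Finset

variable {Ω : Type} [MeasurableSpace Ω] {μ : Measure Ω} [IsProbabilityMeasure μ]
  {n : Ω → ℕ} {A : Set Ω}

lemma exp_le_one' {h : ℝ} (hh : 0 ≤ h) (k : ℕ) : Real.exp (-(h * k)) ≤ 1 := by
  rw [Real.exp_le_one_iff]
  have : 0 ≤ h * k := by positivity
  linarith

lemma meas_f (hn : Measurable n) (h : ℝ) : Measurable fun ω => 1 - Real.exp (-(h * (n ω : ℝ))) := by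
  have : Measurable fun ω => (n ω : ℝ) := measurable_from_top.comp hn
  fun_prop

lemma int_f (hn : Measurable n) {h : ℝ} (hh : 0 ≤ h) :
    Integrable (fun ω => 1 - Real.exp (-(h * (n ω : ℝ)))) (μ.restrict A) := by
  refine Integrable.of_bound (C := 1) (meas_f hn h).aestronglyMeasurable (Filter.Eventually.of_forall fun ω => ?_)
  have h1 := exp_le_one' hh (n ω)
  have h2 := Real.exp_pos (-(h * (n ω : ℝ)))
  rw [Real.norm_eq_abs, abs_le]
  constructor <;> linarith

lemma meas_T (hn : Measurable n) (N : ℕ) : MeasurableSet {ω | N ≤ n ω} :=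
  hn (MeasurableSet.of_discrete : MeasurableSet {k : ℕ | N ≤ k})

lemma real_eq (hn : Measurable n) (N : ℕ) :
    μ.real {ω | N ≤ n ω ∧ ω ∈ A} = ∫ ω in A, {ω | N ≤ n ω}.indicator (fun _ => (1:ℝ)) ω ∂μ := by
  rw [integral_indicator (meas_T hn N), Measure.restrict_restrict (meas_T hn N), setIntegral_const,
    smul_eq_mul, mul_one]
  rfl

lemma int_ind (hn : Measurable n) (N : ℕ) :
    Integrable (fun ω => {ω | N ≤ n ω}.indicator (fun _ => (1:ℝ)) ω) (μ.restrict A) :=
  (integrable_const (1:ℝ)).indicator (meas_T hn N)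

/-- lower bound -/
lemma lower (hn : Measurable n) (hA : MeasurableSet A) {h : ℝ} (hh : 0 ≤ h) {N : ℕ}
    (hN : 1 ≤ h * N) :
    1 / 2 * μ.real {ω | N ≤ n ω ∧ ω ∈ A} ≤ ∫ ω in A, (1 - Real.exp (-(h * (n ω : ℝ)))) ∂μ := by
  rw [real_eq hn, ← integral_const_mul]
  refine integral_mono ((int_ind hn N).const_mul _) (int_f hn hh) fun ω => ?_
  by_cases h1 : N ≤ n ω
  · rw [Set.indicator_of_mem (show ω ∈ {ω | N ≤ n ω} from h1)]
    have h2 : (1:ℝ) ≤ h * n ω := hN.trans (mul_le_mul_of_nonneg_left (by exact_mod_cast h1) hh)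
    have h3 : Real.exp (-(h * n ω)) ≤ Real.exp (-1) := Real.exp_le_exp.2 (by linarith)
    have h4 : Real.exp (-1) ≤ 1 / 2 := by
      have := Real.exp_one_gt_d9
      rw [Real.exp_neg, ← one_div]
      apply one_div_le_one_div_of_le (by norm_num)
      linarith
    simp only
    linarith
  · rw [Set.indicator_of_notMem (show ω ∉ {ω | N ≤ n ω} from h1)]
    have := exp_le_one' hh (n ω)
    simp only
    linarith

/-- upper bound -/
lemma upper (hn : Measurable n) (hA : MeasurableSet A) {h : ℝ} (hh : 0 ≤ h) (N : ℕ) :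
    ∫ ω in A, (1 - Real.exp (-(h * (n ω : ℝ)))) ∂μ ≤
      μ.real {ω | N ≤ n ω ∧ ω ∈ A} + h * ∑ k ∈ range N, μ.real {ω | k + 1 ≤ n ω ∧ ω ∈ A} := by
  have e : μ.real {ω | N ≤ n ω ∧ ω ∈ A} + h * ∑ k ∈ range N, μ.real {ω | k + 1 ≤ n ω ∧ ω ∈ A} =
      ∫ ω in A, ({ω | N ≤ n ω}.indicator (fun _ => (1:ℝ)) ω +
        h * ∑ k ∈ range N, {ω | k + 1 ≤ n ω}.indicator (fun _ => (1:ℝ)) ω) ∂μ := by
    rw [integral_add (int_ind hn N) ((integrable_finsetSum _ fun k _ => int_ind hn (k + 1)).const_mul _),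
      integral_const_mul, integral_finsetSum _ fun k _ => int_ind hn (k + 1), real_eq hn]
    simp only [real_eq hn]
  rw [e]
  refine integral_mono (int_f hn hh) ((int_ind hn N).add
    ((integrable_finsetSum _ fun k _ => int_ind hn (k + 1)).const_mul _)) fun ω => ?_
  simp only
  have hs0 : 0 ≤ ∑ k ∈ range N, {ω | k + 1 ≤ n ω}.indicator (fun _ => (1:ℝ)) ω :=
    Finset.sum_nonneg fun k _ => Set.indicator_nonneg (fun _ _ => zero_le_one) _
  by_cases h1 : N ≤ n ω
  · rw [Set.indicator_of_mem (show ω ∈ {ω | N ≤ n ω} from h1)]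
    have := Real.exp_pos (-(h * (n ω : ℝ)))
    have := mul_nonneg hh hs0
    linarith
  · rw [Set.indicator_of_notMem (show ω ∉ {ω | N ≤ n ω} from h1), zero_add]
    have h2 : ∑ k ∈ range N, {ω | k + 1 ≤ n ω}.indicator (fun _ => (1:ℝ)) ω = n ω := by
      have : ∀ k ∈ range N, {ω | k + 1 ≤ n ω}.indicator (fun _ => (1:ℝ)) ω =
          if k < n ω then 1 else 0 := by
        intro k _
        by_cases hk : k < n ω
        · rw [Set.indicator_of_mem (show ω ∈ {ω | k + 1 ≤ n ω} from hk), if_pos hk]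
        · rw [Set.indicator_of_notMem (show ω ∉ {ω | k + 1 ≤ n ω} from hk), if_neg hk]
      rw [Finset.sum_congr rfl this, ← Finset.sum_filter, Finset.sum_const, nsmul_eq_mul, mul_one]
      congr 1
      have : (range N).filter (fun k => k < n ω) = range (n ω) := by
        ext k
        simp only [mem_filter, mem_range]
        omega
      rw [this, card_range]
    rw [h2]
    have := Real.add_one_le_exp (-(h * (n ω : ℝ)))
    linarith

/-- concavity -/
lemma conc (hn : Measurable n) {h t : ℝ} (hh : 0 ≤ h) (ht : 0 ≤ t) (ht1 : t ≤ 1) :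
    t * ∫ ω in A, (1 - Real.exp (-(h * (n ω : ℝ)))) ∂μ ≤
      ∫ ω in A, (1 - Real.exp (-(t * h * (n ω : ℝ)))) ∂μ := by
  rw [← integral_const_mul]
  refine integral_mono ((int_f hn hh).const_mul _) (int_f hn (mul_nonneg ht hh)) fun ω => ?_
  have := convexOn_exp.2 (Set.mem_univ (-(h * (n ω : ℝ)))) (Set.mem_univ (0:ℝ)) ht
    (show 0 ≤ 1 - t by linarith) (by ring)
  simp only [smul_eq_mul, mul_zero, add_zero, Real.exp_zero, mul_one] at this
  have e : t * -(h * (n ω : ℝ)) = -(t * h * (n ω : ℝ)) := by ring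
  rw [e] at this
  simp only
  linarith

/-- bound by the mean -/
lemma mean (hn : Measurable n) {h m : ℝ} (hh : 0 ≤ h) (hm : 0 ≤ m)
    (hM : ∫⁻ ω in A, (n ω : ENNReal) ∂μ ≤ ENNReal.ofReal m) :
    ∫ ω in A, (1 - Real.exp (-(h * (n ω : ℝ)))) ∂μ ≤ h * m := by
  rw [integral_eq_lintegral_of_nonneg_ae (Filter.Eventually.of_forall fun ω => by
    have := exp_le_one' hh (n ω)
    simp only [Pi.zero_apply]
    linarith) (meas_f hn h).aestronglyMeasurable]
  apply ENNReal.toReal_le_of_le_ofReal (by positivity)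
  rw [ENNReal.ofReal_mul hh]
  refine le_trans ?_ (mul_le_mul_right hM _)
  rw [← lintegral_const_mul' _ _ ENNReal.ofReal_ne_top]
  refine lintegral_mono fun ω => ?_
  rw [← ENNReal.ofReal_natCast, ← ENNReal.ofReal_mul hh]
  apply ENNReal.ofReal_le_ofReal
  have := Real.add_one_le_exp (-(h * (n ω : ℝ)))
  linarith

lemma free_pt {y : ℝ} (hy : 0 ≤ y) : y / 4 * (1 - Real.exp (-y)) ≤ Real.exp (-y) - 1 + y ∧
    Real.exp (-y) - 1 + y ≤ y * (1 - Real.exp (-y)) := by
  constructor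
  · set w := Real.exp (-(y / 2)) with hw
    have h1 : Real.exp (-y) = w * w := by rw [hw, ← Real.exp_add]; congr 1; ring
    have h2 : 1 - y / 2 ≤ w := by
      have := Real.add_one_le_exp (-(y / 2))
      linarith
    have h3 : 0 < w := Real.exp_pos _
    have h4 : w ≤ 1 := Real.exp_le_one_iff.2 (by linarith)
    rw [h1]
    nlinarith [mul_nonneg (show 0 ≤ w + 1 by linarith) (show 0 ≤ w - 1 + y / 2 by linarith),
      mul_nonneg (mul_nonneg hy (show 0 ≤ 1 - w by linarith)) (show 0 ≤ 1 - w by linarith)]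
  · have h1 := Real.add_one_le_exp y
    have h2 : Real.exp (-y) * Real.exp y = 1 := by rw [← Real.exp_add]; simp
    have h3 := Real.exp_pos (-y)
    nlinarith

/-- the free energy -/
lemma free (hn : Measurable n) {h : ℝ} (hh : 0 ≤ h) (hA1 : ∀ ω ∈ A, 1 ≤ n ω)
    (hA : MeasurableSet A) :
    h / 4 * ∫ ω in A, (1 - Real.exp (-(h * (n ω : ℝ)))) ∂μ ≤
      ∫ ω in A, ((Real.exp (-(h * (n ω : ℝ))) - 1) / n ω + h) ∂μ ∧
    ∫ ω in A, ((Real.exp (-(h * (n ω : ℝ))) - 1) / n ω + h) ∂μ ≤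
      h * ∫ ω in A, (1 - Real.exp (-(h * (n ω : ℝ)))) ∂μ := by
  have hp : ∀ ω ∈ A, h / 4 * (1 - Real.exp (-(h * (n ω : ℝ)))) ≤
      (Real.exp (-(h * (n ω : ℝ))) - 1) / n ω + h ∧
      (Real.exp (-(h * (n ω : ℝ))) - 1) / n ω + h ≤ h * (1 - Real.exp (-(h * (n ω : ℝ)))) := by
    intro ω hω
    have h1 : (0:ℝ) < n ω := by exact_mod_cast hA1 ω hω
    obtain ⟨g1, g2⟩ := free_pt (y := h * n ω) (by positivity)
    have e : (Real.exp (-(h * (n ω : ℝ))) - 1) / n ω + h =
        (Real.exp (-(h * (n ω : ℝ))) - 1 + h * n ω) / n ω := by field_simp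
    rw [e, le_div_iff₀ h1, div_le_iff₀ h1]
    constructor <;> nlinarith
  have hi : Integrable (fun ω => (Real.exp (-(h * (n ω : ℝ))) - 1) / n ω + h) (μ.restrict A) := by
    have hm : Measurable fun ω => (n ω : ℝ) := measurable_from_top.comp hn
    have hm2 : Measurable fun ω => (Real.exp (-(h * (n ω : ℝ))) - 1) / n ω + h :=
      (((Real.measurable_exp.comp (hm.const_mul h).neg).sub_const 1).div hm).add_const h
    refine Integrable.of_bound (C := h) hm2.aestronglyMeasurable ?_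
    rw [ae_restrict_iff' hA]
    refine Filter.Eventually.of_forall fun ω hω => ?_
    obtain ⟨g1, g2⟩ := hp ω hω
    have h1 := exp_le_one' hh (n ω)
    have h2 := Real.exp_pos (-(h * (n ω : ℝ)))
    rw [Real.norm_eq_abs, abs_le]
    constructor <;> nlinarith
  constructor
  · rw [← integral_const_mul]
    exact setIntegral_mono_on ((int_f hn hh).const_mul _) hi hA fun ω hω => (hp ω hω).1
  · rw [← integral_const_mul]
    exact setIntegral_mono_on hi ((int_f hn hh).const_mul _) hA fun ω hω => (hp ω hω).2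

/-- `∑ k^(-5/91) ≤ (91/86) m^(86/91)` -/
lemma sum_pow (m : ℕ) : ∑ k ∈ range m, ((k + 1 : ℕ) : ℝ) ^ (-(5/91) : ℝ) ≤
    91 / 86 * (m : ℝ) ^ (86/91 : ℝ) := by
  induction m with
  | zero => simp [Real.zero_rpow]
  | succ m ih =>
    rw [sum_range_succ]
    refine (add_le_add_left ih _).trans ?_
    have hm : (0:ℝ) < (m:ℝ) + 1 := by positivity
    have h1 := rpow_one_add_le_one_add_mul_self (s := -(1 / ((m:ℝ) + 1))) (p := 86/91)
      (by
        have : 1 / ((m:ℝ) + 1) ≤ 1 := by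
          rw [div_le_one hm]; linarith [Nat.cast_nonneg (α := ℝ) m]
        linarith) (by norm_num) (by norm_num)
    have e1 : 1 + -(1 / ((m:ℝ) + 1)) = m / ((m:ℝ) + 1) := by field_simp; ring
    rw [e1, Real.div_rpow (by positivity) hm.le, div_le_iff₀ (by positivity)] at h1
    have e2 : ((m:ℝ) + 1) ^ (-(5/91) : ℝ) = ((m:ℝ) + 1) ^ (86/91 : ℝ) / ((m:ℝ) + 1) := by
      rw [← Real.rpow_sub_one hm.ne']; norm_num
    push_cast
    rw [e2]
    have h3 : 0 < ((m:ℝ) + 1) ^ (86/91 : ℝ) := by positivity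
    have e4 : (1 + 86 / 91 * -(1 / ((m:ℝ) + 1))) * ((m:ℝ) + 1) ^ (86/91 : ℝ) =
      ((m:ℝ) + 1) ^ (86/91 : ℝ) - 86 / 91 * (((m:ℝ) + 1) ^ (86/91 : ℝ) / ((m:ℝ) + 1)) := by
      field_simp
      ring
    rw [e4] at h1
    linarith

end Pool.Agent.W2helper75.EQ
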