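import Pool.Agent.W2helper75.EQ.Abs

/-! Magnetization from the tail of the cluster size: numbers. -/

set_option autoImplicit false

namespace Pool.Agent.W2helper75.EQ

open Finset

lemma num {c C s : ℝ} (hc : 0 < c) (hC : 0 < C) (hs : 0 ≤ s) {T : ℕ → ℝ} {g : ℝ → ℝ}
    (hT1 : ∀ N : ℕ, 1 ≤ N → T N ≤ C * (N:ℝ) ^ (-(5/91) : ℝ))
    (hT2 : ∀ N : ℕ, 1 ≤ N → N * s ^ (91/36 : ℝ) ≤ c → c * (N:ℝ) ^ (-(5/91) : ℝ) ≤ T N)
    (hg1 : ∀ h : ℝ, 0 ≤ h → ∀ N : ℕ, 1 ≤ h * N → 1 / 2 * T N ≤ g h)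
    (hg2 : ∀ h : ℝ, 0 ≤ h → ∀ N : ℕ, g h ≤ T N + h * ∑ k ∈ range N, T (k + 1))
    (hg3 : ∀ h t : ℝ, 0 ≤ h → 0 ≤ t → t ≤ 1 → t * g h ≤ g (t * h))
    {h : ℝ} (hh : 0 < h) (hh1 : h ≤ 1) :
    g h ≤ 4 * C * h ^ (5/91 : ℝ) ∧
    (2 / c * s ^ (91/36 : ℝ) ≤ h → c / 4 * h ^ (5/91 : ℝ) ≤ g h) ∧
    (0 < s → h ≤ 2 / c * s ^ (91/36 : ℝ) → 2 / c * s ^ (91/36 : ℝ) ≤ 1 →
      c / 4 * (2 / c) ^ (-(86/91) : ℝ) * (h * s ^ (-(43/18) : ℝ)) ≤ g h) := by
  -- the lower bound, for all `h`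
  have key : ∀ h : ℝ, 0 < h → h ≤ 1 → 2 / c * s ^ (91/36 : ℝ) ≤ h →
      c / 4 * h ^ (5/91 : ℝ) ≤ g h := by
    intro h hh hh1 hs1
    have hN1 : 1 ≤ ⌈1 / h⌉₊ := Nat.one_le_iff_ne_zero.2 (by
      rw [Ne, Nat.ceil_eq_zero, not_le]; positivity)
    have hN2 : 1 / h ≤ (⌈1 / h⌉₊ : ℝ) := Nat.le_ceil _
    have hN3 : (⌈1 / h⌉₊ : ℝ) ≤ 2 / h := by
      have h1 := (Nat.ceil_lt_add_one (show 0 ≤ 1 / h by positivity)).le
      have h2 : 1 ≤ 1 / h := by rw [le_div_iff₀ hh]; linarith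
      have h3 : 2 / h = 1 / h + 1 / h := by ring
      linarith
    set N := ⌈1 / h⌉₊
    have hN0 : (0:ℝ) < N := by exact_mod_cast hN1
    have e1 := hg1 h hh.le N (by rw [div_le_iff₀ hh] at hN2; linarith)
    have e2 := hT2 N hN1 (by
      have h1 : (N:ℝ) * s ^ (91/36 : ℝ) ≤ 2 / h * s ^ (91/36 : ℝ) :=
        mul_le_mul_of_nonneg_right hN3 (by positivity)
      have h2 : 2 / h * s ^ (91/36 : ℝ) ≤ c := by
        rw [div_mul_eq_mul_div, div_le_iff₀ hh]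
        rw [div_mul_eq_mul_div, div_le_iff₀ hc] at hs1
        linarith
      linarith)
    have e3 : h ^ (5/91 : ℝ) / 2 ≤ (N:ℝ) ^ (-(5/91) : ℝ) := by
      have h1 : (2 / h) ^ (-(5/91) : ℝ) ≤ (N:ℝ) ^ (-(5/91) : ℝ) :=
        Real.rpow_le_rpow_of_nonpos hN0 hN3 (by norm_num)
      refine le_trans ?_ h1
      rw [Real.rpow_neg (by positivity), ← Real.inv_rpow (by positivity), inv_div,
        Real.div_rpow hh.le (by norm_num)]
      apply div_le_div_of_nonneg_left (by positivity) (by positivity)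
      calc (2:ℝ) ^ (5/91 : ℝ) ≤ 2 ^ (1:ℝ) := Real.rpow_le_rpow_of_exponent_le (by norm_num) (by norm_num)
        _ = 2 := by norm_num
    nlinarith
  refine ⟨?_, key h hh hh1, ?_⟩
  · have hN1 : 1 ≤ ⌈1 / h⌉₊ := Nat.one_le_iff_ne_zero.2 (by
      rw [Ne, Nat.ceil_eq_zero, not_le]; positivity)
    have hN2 : 1 / h ≤ (⌈1 / h⌉₊ : ℝ) := Nat.le_ceil _
    have hN3 : (⌈1 / h⌉₊ : ℝ) ≤ 2 / h := by
      have h1 := (Nat.ceil_lt_add_one (show 0 ≤ 1 / h by positivity)).le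
      have h2 : 1 ≤ 1 / h := by rw [le_div_iff₀ hh]; linarith
      have h3 : 2 / h = 1 / h + 1 / h := by ring
      linarith
    set N := ⌈1 / h⌉₊
    have hN0 : (0:ℝ) < N := by exact_mod_cast hN1
    have e1 : T N ≤ C * h ^ (5/91 : ℝ) := by
      refine (hT1 N hN1).trans (mul_le_mul_of_nonneg_left ?_ hC.le)
      have h1 : (N:ℝ) ^ (-(5/91) : ℝ) ≤ (1 / h) ^ (-(5/91) : ℝ) :=
        Real.rpow_le_rpow_of_nonpos (by positivity) hN2 (by norm_num)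
      refine h1.trans (le_of_eq ?_)
      rw [Real.rpow_neg (by positivity), ← Real.inv_rpow (by positivity), inv_div, div_one]
    have e2 : ∑ k ∈ range N, T (k + 1) ≤ C * (91 / 86 * (N:ℝ) ^ (86/91 : ℝ)) := by
      refine le_trans (sum_le_sum fun k _ => hT1 (k + 1) (by omega)) ?_
      rw [← mul_sum]
      exact mul_le_mul_of_nonneg_left (sum_pow N) hC.le
    have e3 : h * (N:ℝ) ^ (86/91 : ℝ) ≤ 2 * h ^ (5/91 : ℝ) := by
      have h1 : (N:ℝ) ^ (86/91 : ℝ) ≤ (2 / h) ^ (86/91 : ℝ) :=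
        Real.rpow_le_rpow hN0.le hN3 (by norm_num)
      have h2 : (2 / h) ^ (86/91 : ℝ) ≤ 2 * h ^ (-(86/91) : ℝ) := by
        rw [Real.div_rpow (by norm_num) hh.le, Real.rpow_neg hh.le, ← div_eq_mul_inv]
        apply div_le_div_of_nonneg_right _ (by positivity)
        calc (2:ℝ) ^ (86/91 : ℝ) ≤ 2 ^ (1:ℝ) :=
              Real.rpow_le_rpow_of_exponent_le (by norm_num) (by norm_num)
          _ = 2 := by norm_num
      have h3 : h * h ^ (-(86/91) : ℝ) = h ^ (5/91 : ℝ) := by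
        nth_rewrite 1 [← Real.rpow_one h]
        rw [← Real.rpow_add hh]
        norm_num
      calc h * (N:ℝ) ^ (86/91 : ℝ) ≤ h * (2 * h ^ (-(86/91) : ℝ)) :=
            mul_le_mul_of_nonneg_left (h1.trans h2) hh.le
        _ = 2 * (h * h ^ (-(86/91) : ℝ)) := by ring
        _ = _ := by rw [h3]
    have e4 := hg2 h hh.le N
    have e5 := mul_le_mul_of_nonneg_left e2 hh.le
    have e6 := mul_le_mul_of_nonneg_left e3 hC.le
    have e7 : 0 < C * h ^ (5/91 : ℝ) := by positivity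
    nlinarith
  · intro hs0 h1 h2
    have hsp : 0 < s ^ (91/36 : ℝ) := by positivity
    set H := 2 / c * s ^ (91/36 : ℝ) with hH
    have hH0 : 0 < H := by positivity
    have e1 := key H hH0 h2 le_rfl
    have e2 := hg3 H (h / H) hH0.le (by positivity) (by rw [div_le_one hH0]; exact h1)
    rw [div_mul_cancel₀ _ hH0.ne'] at e2
    refine le_trans (le_of_eq ?_) ((mul_le_mul_of_nonneg_left e1 (show 0 ≤ h / H by positivity)).trans e2)
    have e3 : H ^ (5/91 : ℝ) / H = (2 / c) ^ (-(86/91) : ℝ) * s ^ (-(43/18) : ℝ) := by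
      rw [← Real.rpow_sub_one hH0.ne', hH, Real.mul_rpow (by positivity) hsp.le,
        ← Real.rpow_mul hs]
      norm_num
    calc c / 4 * (2 / c) ^ (-(86/91) : ℝ) * (h * s ^ (-(43/18) : ℝ))
        = c / 4 * h * ((2 / c) ^ (-(86/91) : ℝ) * s ^ (-(43/18) : ℝ)) := by ring
      _ = c / 4 * h * (H ^ (5/91 : ℝ) / H) := by rw [e3]
      _ = _ := by ring

end Pool.Agent.W2helper75.EQ
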