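import Pool.Agent.Results.MP_5f99b0_pr.ClusterSizeLaw
import Pool.Agent.W2helper75.EQ.Num

/-!
Bond percolation on the square lattice near the critical point `1/2`, in a magnetic field `h`: the
magnetization `M(p, h) = E_p[1 - exp(-h |C|)]` (with `exp(-∞) = 0`; `C` the open cluster of the origin)
and the free energy `F(p, h) = E_p[exp(-h |C|) / |C|]`, up to constants, for all `0 < h ≤ 1` and `p` near
`1/2`.
-/

set_option autoImplicit false

namespace Pool.Agent.W2helper75.EQ.EquationOfState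

open MeasureTheory Finset Pool.Agent.Results.MP_5f99b0_pr.ClusterSizeLaw Pool.Agent.W2helper75.EQ

/-- The magnetization `E_p[1 - exp(-h |C|)]`, where `exp(-∞) = 0`: the probability that the cluster
`C` of the origin is infinite or joined to the ghost vertex, if each vertex is joined to it with
probability `1 - exp(-h)`, independently. -/
noncomputable def mag (p : unitInterval) (h : ℝ) : ℝ :=
  theta p + ∫ ω in {ω | (cluster ω).Finite}, (1 - Real.exp (-(h * ((cluster ω).ncard : ℝ)))) ∂(law p)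

/-- The free energy `E_p[exp(-h |C|) / |C|; |C| < ∞]`; for `h = 0` it is the mean number of
clusters per vertex. -/
noncomputable def freeEnergy (p : unitInterval) (h : ℝ) : ℝ :=
  ∫ ω in {ω | (cluster ω).Finite},
    Real.exp (-(h * ((cluster ω).ncard : ℝ))) / ((cluster ω).ncard : ℝ) ∂(law p)

lemma meas_fin' : MeasurableSet {ω : Z2.edgeSet → Bool | (cluster ω).Finite} :=
  Pool.Agent.W2helper77.TP.meas_fin

lemma meas_tail (N : ℕ) :
    MeasurableSet {ω : Z2.edgeSet → Bool | (N : ENat) ≤ (cluster ω).encard ∧ (cluster ω).Finite} :=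
  Pool.Agent.W2helper77.TP.meas_VE N

lemma origin_mem' (ω : Z2.edgeSet → Bool) : (0, 0) ∈ cluster ω := SimpleGraph.Reachable.refl _

lemma one_le {ω : Z2.edgeSet → Bool} (h : (cluster ω).Finite) : 1 ≤ (cluster ω).ncard :=
  (Set.ncard_pos h).2 ⟨_, origin_mem' ω⟩

lemma tail_set (N : ℕ) : {ω : Z2.edgeSet → Bool | (N : ENat) ≤ (cluster ω).encard ∧ (cluster ω).Finite} =
    {ω | N ≤ (cluster ω).ncard ∧ ω ∈ {ω : Z2.edgeSet → Bool | (cluster ω).Finite}} := by
  ext ω
  simp only [Set.mem_ofPred_eq]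
  refine and_congr_left fun h => ?_
  rw [← h.cast_ncard_eq]
  exact Nat.cast_le

lemma meas_n : Measurable fun ω : Z2.edgeSet → Bool => (cluster ω).ncard := by
  apply measurable_of_Ici
  intro N
  rcases Nat.eq_zero_or_pos N with h | h
  · subst h
    simp
  · have : (fun ω : Z2.edgeSet → Bool => (cluster ω).ncard) ⁻¹' Set.Ici N =
        {ω : Z2.edgeSet → Bool | (N : ENat) ≤ (cluster ω).encard ∧ (cluster ω).Finite} := by
      rw [tail_set]
      ext ω
      simp only [Set.mem_preimage, Set.mem_Ici, Set.mem_ofPred_eq]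
      refine ⟨fun h1 => ⟨h1, ?_⟩, fun h1 => h1.1⟩
      by_contra h2
      rw [Set.Infinite.ncard h2] at h1
      omega
    rw [this]
    exact meas_tail N

instance (p : unitInterval) : IsProbabilityMeasure (law p) := by
  unfold law
  infer_instance

lemma tail_eq (p : unitInterval) (N : ℕ) : tail p N =
    (law p).real {ω | N ≤ (cluster ω).ncard ∧ ω ∈ {ω : Z2.edgeSet → Bool | (cluster ω).Finite}} := by
  unfold tail
  rw [tail_set]

/-- the part of the finite clusters -/
noncomputable def fin (p : unitInterval) (h : ℝ) : ℝ :=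
  ∫ ω in {ω | (cluster ω).Finite}, (1 - Real.exp (-(h * ((cluster ω).ncard : ℝ)))) ∂(law p)

lemma fin_nonneg (p : unitInterval) {h : ℝ} (hh : 0 ≤ h) : 0 ≤ fin p h := by
  unfold fin
  refine integral_nonneg fun ω => ?_
  have := exp_le_one' hh (cluster ω).ncard
  simp only [Pi.zero_apply]
  linarith

lemma theta_nonneg (p : unitInterval) : 0 ≤ theta p := measureReal_nonneg

lemma free_diff (p : unitInterval) {h : ℝ} (hh : 0 ≤ h) :
    freeEnergy p h - freeEnergy p 0 + h = h * theta p +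
      ∫ ω in {ω | (cluster ω).Finite}, ((Real.exp (-(h * ((cluster ω).ncard : ℝ))) - 1) /
        ((cluster ω).ncard : ℝ) + h) ∂(law p) := by
  have hm : Measurable fun ω : Z2.edgeSet → Bool => ((cluster ω).ncard : ℝ) :=
    measurable_from_top.comp meas_n
  have hi : ∀ t : ℝ, 0 ≤ t → Integrable (fun ω : Z2.edgeSet → Bool =>
      Real.exp (-(t * ((cluster ω).ncard : ℝ))) / ((cluster ω).ncard : ℝ))
      ((law p).restrict {ω | (cluster ω).Finite}) := by
    intro t ht
    have hm2 : Measurable fun ω : Z2.edgeSet → Bool =>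
        Real.exp (-(t * ((cluster ω).ncard : ℝ))) / ((cluster ω).ncard : ℝ) :=
      (Real.measurable_exp.comp (hm.const_mul t).neg).div hm
    refine Integrable.of_bound (C := 1) hm2.aestronglyMeasurable ?_
    rw [ae_restrict_iff' meas_fin']
    refine Filter.Eventually.of_forall fun ω hω => ?_
    have h1 : (1:ℝ) ≤ ((cluster ω).ncard : ℝ) := by exact_mod_cast one_le hω
    have h2 := exp_le_one' ht (cluster ω).ncard
    rw [Real.norm_eq_abs, abs_of_nonneg (by positivity), div_le_one (by linarith)]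
    linarith
  have e1 : theta p = 1 - (law p).real {ω : Z2.edgeSet → Bool | (cluster ω).Finite} := by
    unfold theta
    have : {ω : Z2.edgeSet → Bool | (cluster ω).Infinite} =
        {ω : Z2.edgeSet → Bool | (cluster ω).Finite}ᶜ := rfl
    rw [this, measureReal_compl meas_fin', probReal_univ]
  have e2 : ∫ ω in {ω | (cluster ω).Finite}, ((Real.exp (-(h * ((cluster ω).ncard : ℝ))) - 1) /
        ((cluster ω).ncard : ℝ) + h) ∂(law p) = freeEnergy p h - freeEnergy p 0 +
        h * (law p).real {ω : Z2.edgeSet → Bool | (cluster ω).Finite} := by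
    unfold freeEnergy
    rw [← integral_sub (hi h hh) (hi 0 le_rfl)]
    have e3 : h * (law p).real {ω : Z2.edgeSet → Bool | (cluster ω).Finite} =
        ∫ _ω in {ω : Z2.edgeSet → Bool | (cluster ω).Finite}, h ∂(law p) := by
      rw [setIntegral_const, smul_eq_mul, mul_comm]
    have e4 := integral_add ((hi h hh).sub (hi 0 le_rfl))
      (integrable_const (μ := (law p).restrict {ω | (cluster ω).Finite}) h)
    simp only [Pi.sub_apply] at e4
    rw [e3, ← e4]
    refine integral_congr_ae (Filter.Eventually.of_forall fun ω => ?_)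
    simp only [zero_mul, neg_zero, Real.exp_zero]
    ring
  rw [e2, e1]
  ring

/-- **The magnetization and the free energy of bond percolation on the square lattice near the
critical point, up to constants.** With `s = |p - 1/2|`, for `0 < h ≤ 1` and `s ≤ δ`: above and at the
critical point `M(p, h)` is of order `s^(5/36) + h^(5/91)`; below it is of order
`min (h^(5/91)) (h s^(-43/18))`; and `F(p, h) - F(p, 0) + h` is of order `h M(p, h)`. -/
theorem result : ∃ δ c C : ℝ, 0 < δ ∧ 0 < c ∧ 0 < C ∧ ∀ (p : unitInterval) (h : ℝ), 0 < h → h ≤ 1 →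
    |(p:ℝ) - 1/2| ≤ δ →
    (1/2 ≤ (p:ℝ) →
      c * (((p:ℝ) - 1/2) ^ (5/36 : ℝ) + h ^ (5/91 : ℝ)) ≤ mag p h ∧
      mag p h ≤ C * (((p:ℝ) - 1/2) ^ (5/36 : ℝ) + h ^ (5/91 : ℝ))) ∧
    ((p:ℝ) < 1/2 →
      c * min (h ^ (5/91 : ℝ)) (h * (1/2 - (p:ℝ)) ^ (-(43/18) : ℝ)) ≤ mag p h ∧
      mag p h ≤ C * min (h ^ (5/91 : ℝ)) (h * (1/2 - (p:ℝ)) ^ (-(43/18) : ℝ))) ∧
    h / 4 * mag p h ≤ freeEnergy p h - freeEnergy p 0 + h ∧
    freeEnergy p h - freeEnergy p 0 + h ≤ h * mag p h := by
  obtain ⟨h0, δ, c, C, hδ, hc, hC, h1, h2, h3⟩ := ClusterSizeLaw.result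
  obtain ⟨c', C', hc', hC', -, h4⟩ := h3 1 le_rfl
  have ha : 0 < (2 / c) ^ (-(86/91) : ℝ) := by positivity
  have hb : 0 < (2 / c) ^ (-(5/91) : ℝ) := by positivity
  refine ⟨min δ (min (c / 2) 1), min (c / 4) (min (c / 4 * (2 / c) ^ (-(86/91) : ℝ))
    (c / 2 * (2 / c) ^ (-(5/91) : ℝ))), C + 4 * C + C', by positivity, by positivity, by positivity, ?_⟩
  intro p h hh hh1 hp
  set k := min (c / 4) (min (c / 4 * (2 / c) ^ (-(86/91) : ℝ))
    (c / 2 * (2 / c) ^ (-(5/91) : ℝ))) with hk
  have hk0 : 0 < k := by positivity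
  have hk1 : k ≤ c / 4 := min_le_left _ _
  have hk2 : k ≤ c / 4 * (2 / c) ^ (-(86/91) : ℝ) := (min_le_right _ _).trans (min_le_left _ _)
  have hk3 : k ≤ c / 2 * (2 / c) ^ (-(5/91) : ℝ) := (min_le_right _ _).trans (min_le_right _ _)
  have hpδ : |(p:ℝ) - 1/2| ≤ δ := hp.trans (min_le_left _ _)
  have hpc : |(p:ℝ) - 1/2| ≤ c / 2 := hp.trans ((min_le_right _ _).trans (min_le_left _ _))
  have hp1 : |(p:ℝ) - 1/2| ≤ 1 := hp.trans ((min_le_right _ _).trans (min_le_right _ _))
  obtain ⟨s, hs⟩ : ∃ s : ℝ, s = |(p:ℝ) - 1/2| := ⟨_, rfl⟩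
  have hs0 : 0 ≤ s := by rw [hs]; exact abs_nonneg _
  rw [← hs] at hpδ hpc hp1
  have hN := num hc hC hs0 (T := tail p) (g := fin p)
    (fun N hN => (h2 p (by rw [← hs]; exact hpδ) N hN).1)
    (fun N hN h => (h2 p (by rw [← hs]; exact hpδ) N hN).2 (by rw [← hs]; exact h))
    (fun h hh N hN => by
      rw [tail_eq]
      exact lower (μ := law p) meas_n meas_fin' hh hN)
    (fun h hh N => by
      simp only [tail_eq]
      exact upper (μ := law p) meas_n meas_fin' hh N)
    (fun h t hh ht ht1 => conc (μ := law p) meas_n hh ht ht1)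
    hh hh1
  obtain ⟨n1, n2, n3⟩ := hN
  have hmag : mag p h = theta p + fin p h := rfl
  have hfin := fin_nonneg p hh.le
  have hth := theta_nonneg p
  have hhp : 0 < h ^ (5/91 : ℝ) := by positivity
  refine ⟨fun hp2 => ?_, fun hp2 => ?_, ?_⟩
  · -- above
    have hsp : (p:ℝ) - 1/2 = s := by rw [hs, abs_of_nonneg (by linarith)]
    rw [hsp]
    let q : unitInterval := ⟨1/2, by norm_num, by norm_num⟩
    have hq : theta q = 0 := h0 q le_rfl
    obtain ⟨g1, g2⟩ := h1 q p le_rfl (by change (1/2:ℝ) ≤ p; exact hp2) (by linarith)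
    rw [hq, sub_zero, hsp] at g1 g2
    have e0 : ((q:ℝ) - 1/2) ^ (5/36 : ℝ) = 0 := by
      have : (q:ℝ) - 1/2 = 0 := by change (1/2:ℝ) - 1/2 = 0; norm_num
      rw [this, Real.zero_rpow (by norm_num)]
    rw [e0, sub_zero] at g1 g2
    have hs5 : 0 ≤ s ^ (5/36 : ℝ) := by positivity
    constructor
    · rw [hmag]
      rcases le_or_gt (2 / c * s ^ (91/36 : ℝ)) h with h5 | h5
      · have := n2 h5
        have : k * s ^ (5/36 : ℝ) ≤ c * s ^ (5/36 : ℝ) := mul_le_mul_of_nonneg_right (by linarith) hs5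
        have : k * h ^ (5/91 : ℝ) ≤ c / 4 * h ^ (5/91 : ℝ) := mul_le_mul_of_nonneg_right hk1 hhp.le
        linarith
      · have h6 : h ^ (5/91 : ℝ) ≤ (2 / c) ^ (5/91 : ℝ) * s ^ (5/36 : ℝ) := by
          refine (Real.rpow_le_rpow hh.le h5.le (by norm_num)).trans (le_of_eq ?_)
          rw [Real.mul_rpow (by positivity) (by positivity), ← Real.rpow_mul hs0]
          norm_num
        have h7 : (2 / c) ^ (-(5/91) : ℝ) * (2 / c) ^ (5/91 : ℝ) = 1 := by
          rw [← Real.rpow_add (by positivity)]; norm_num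
        have h8 : k * h ^ (5/91 : ℝ) ≤ c / 2 * s ^ (5/36 : ℝ) := by
          calc k * h ^ (5/91 : ℝ) ≤ (c / 2 * (2 / c) ^ (-(5/91) : ℝ)) *
                ((2 / c) ^ (5/91 : ℝ) * s ^ (5/36 : ℝ)) :=
                mul_le_mul hk3 h6 hhp.le (by positivity)
            _ = c / 2 * s ^ (5/36 : ℝ) * ((2 / c) ^ (-(5/91) : ℝ) * (2 / c) ^ (5/91 : ℝ)) := by ring
            _ = _ := by rw [h7, mul_one]
        have : k * s ^ (5/36 : ℝ) ≤ c / 2 * s ^ (5/36 : ℝ) :=
          mul_le_mul_of_nonneg_right (by linarith) hs5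
        linarith
    · rw [hmag]
      have e1 : 0 ≤ C * s ^ (5/36 : ℝ) := by positivity
      have e2 : 0 ≤ C' * s ^ (5/36 : ℝ) := by positivity
      have e3 : 0 ≤ C * h ^ (5/91 : ℝ) := by positivity
      have e4 : 0 ≤ C' * h ^ (5/91 : ℝ) := by positivity
      nlinarith
  · -- below
    have hsp : 1/2 - (p:ℝ) = s := by rw [hs, abs_of_nonpos (by linarith)]; ring
    have hsp0 : 0 < s := by linarith
    rw [hsp]
    have e0 : theta p = 0 := h0 p hp2.le
    rw [hmag, e0, zero_add]
    have hx : 0 < h * s ^ (-(43/18) : ℝ) := by positivity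
    constructor
    · rcases le_or_gt (2 / c * s ^ (91/36 : ℝ)) h with h5 | h5
      · calc k * min (h ^ (5/91 : ℝ)) (h * s ^ (-(43/18) : ℝ)) ≤ k * h ^ (5/91 : ℝ) :=
              mul_le_mul_of_nonneg_left (min_le_left _ _) hk0.le
          _ ≤ c / 4 * h ^ (5/91 : ℝ) := mul_le_mul_of_nonneg_right hk1 hhp.le
          _ ≤ _ := n2 h5
      · have h6 : 2 / c * s ^ (91/36 : ℝ) ≤ 1 := by
          have h7 : s ^ (91/36 : ℝ) ≤ s := by
            calc s ^ (91/36 : ℝ) ≤ s ^ (1:ℝ) :=
                  Real.rpow_le_rpow_of_exponent_ge hsp0 hp1 (by norm_num)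
              _ = s := Real.rpow_one s
          rw [div_mul_eq_mul_div, div_le_one hc]
          linarith
        calc k * min (h ^ (5/91 : ℝ)) (h * s ^ (-(43/18) : ℝ)) ≤ k * (h * s ^ (-(43/18) : ℝ)) :=
              mul_le_mul_of_nonneg_left (min_le_right _ _) hk0.le
          _ ≤ c / 4 * (2 / c) ^ (-(86/91) : ℝ) * (h * s ^ (-(43/18) : ℝ)) :=
              mul_le_mul_of_nonneg_right hk2 hx.le
          _ ≤ _ := n3 hsp0 h5.le h6
    · have m1 : fin p h ≤ h * (C' * s ^ (-(43/18) : ℝ)) := by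
        refine mean (μ := law p) meas_n hh.le (by positivity) ?_
        have h5 := (h4 p (by rw [← hs]; exact hpδ) hp2.ne).2
        rw [← hs] at h5
        have e1 : (-((91 * ((1:ℕ):ℝ) - 5)/36) : ℝ) = -(43/18) := by norm_num
        rw [e1] at h5
        refine le_trans (le_of_eq ?_) h5
        unfold moment
        refine setLIntegral_congr_fun meas_fin' fun ω hω => ?_
        simp only [pow_one]
        rw [← Set.Finite.cast_ncard_eq hω]
        rfl
      have e1 : 0 < C * min (h ^ (5/91 : ℝ)) (h * s ^ (-(43/18) : ℝ)) := by positivity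
      have e2 : 0 < C' * min (h ^ (5/91 : ℝ)) (h * s ^ (-(43/18) : ℝ)) := by positivity
      rcases min_cases (h ^ (5/91 : ℝ)) (h * s ^ (-(43/18) : ℝ)) with ⟨h5, -⟩ | ⟨h5, -⟩
      · rw [h5] at e1 e2 ⊢
        linarith
      · rw [h5] at e1 e2 ⊢
        linarith
  · have f1 := free (μ := law p) (A := {ω : Z2.edgeSet → Bool | (cluster ω).Finite}) meas_n hh.le
      (fun ω hω => one_le hω) meas_fin'
    rw [free_diff p hh.le, hmag]
    have e1 : 0 ≤ h * theta p := by positivity
    obtain ⟨g1, g2⟩ := f1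
    change h / 4 * fin p h ≤ _ at g1
    change _ ≤ h * fin p h at g2
    constructor
    · have e2 : h / 4 * (theta p + fin p h) = h / 4 * fin p h + h * theta p / 4 := by ring
      rw [e2]
      linarith
    · have e2 : h * (theta p + fin p h) = h * fin p h + h * theta p := by ring
      rw [e2]
      linarith

end Pool.Agent.W2helper75.EQ.EquationOfState
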